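import Pool.Agent.Helper826.Bondy.Core
import Pool.Agent.Helper826.Bondy.Upper

/-!
The least number `m p` of edges of a pancyclic graph on `p` vertices is
`p + log₂ p + log* p + O(1)`; more precisely it lies between `p + log₂ p + log* p - C` and
`p + log₂ p + log* p` for all `p ≥ 3`.
-/

set_option autoImplicit false

namespace Pool.Agent.Results.MP_af4270_co.TwoSided

/-- The graph `G` on `p` vertices contains a cycle of every length `ℓ` with `3 ≤ ℓ ≤ p`. -/
def Pancyclic {p : ℕ} (G : SimpleGraph (Fin p)) : Prop :=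
  ∀ l : ℕ, 3 ≤ l → l ≤ p → ∃ (v : Fin p) (c : G.Walk v v), c.IsCycle ∧ c.length = l

/-- `m p`: the least number of edges of a pancyclic graph on `p` vertices. -/
noncomputable def m (p : ℕ) : ℕ :=
  sInf {e : ℕ | ∃ G : SimpleGraph (Fin p), Pancyclic G ∧ G.edgeSet.ncard = e}

/-- The iterated logarithm: the least number of times `log₂` must be applied, starting from `p`, to
reach a value at most `1`. -/
noncomputable def logStar (p : ℕ) : ℕ :=
  sInf {k : ℕ | (Real.logb 2)^[k] (p : ℝ) ≤ 1}

/-- The minimum in `m p` is over a nonempty set. -/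
theorem m_set_nonempty (p : ℕ) :
    {e : ℕ | ∃ G : SimpleGraph (Fin p), Pancyclic G ∧ G.edgeSet.ncard = e}.Nonempty := by
  refine ⟨(⊤ : SimpleGraph (Fin p)).edgeSet.ncard, ⊤, ?_, rfl⟩
  intro k hk hkn
  rw [← SimpleGraph.cycleGraph_isContained_iff (by omega : 2 < k)]
  exact SimpleGraph.isContained_top_iff.mpr ⟨Fin.castLEEmb hkn⟩

theorem m_attained (p : ℕ) :
    ∃ G : SimpleGraph (Fin p), Pancyclic G ∧ G.edgeSet.ncard = m p :=
  Nat.sInf_mem (m_set_nonempty p)

/-- The iterated logarithm of `p` is attained: some iterate of `log₂` at `p` is at most `1`. -/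
theorem logStar_set_nonempty (p : ℕ) :
    {k : ℕ | (Real.logb 2)^[k] (p : ℝ) ≤ 1}.Nonempty := by
  have hstep : ∀ x : ℝ, 1 < x → Real.logb 2 x ≤ max 1 (x - 1) := by
    intro x hx
    by_cases h : x ≤ 2
    · refine le_max_of_le_left ?_
      rw [Real.logb_le_iff_le_rpow (by norm_num) (by linarith)]
      simpa using h
    · push Not at h
      refine le_max_of_le_right ?_
      have h1 : Real.log (x / 2) ≤ x / 2 - 1 := Real.log_le_sub_one_of_pos (by linarith)
      have h2 : Real.log x = Real.log 2 + Real.log (x / 2) := by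
        rw [← Real.log_mul (by norm_num) (by positivity)]; congr 1; field_simp
      have h3 : (0.69 : ℝ) < Real.log 2 := by
        have := Real.log_two_gt_d9; linarith
      rw [← Real.log_div_log, h2, div_le_iff₀ (by linarith)]
      nlinarith
  have key : ∀ (j : ℕ) (x : ℝ), x ≤ j + 1 → ∃ k : ℕ, (Real.logb 2)^[k] x ≤ 1 := by
    intro j
    induction j with
    | zero =>
      intro x hx
      exact ⟨0, by simpa using hx⟩
    | succ j ih =>
      intro x hx
      by_cases h1 : x ≤ 1
      · exact ⟨0, by simpa using h1⟩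
      · push Not at h1
        have h2 := hstep x h1
        have h3 : Real.logb 2 x ≤ j + 1 := by
          refine h2.trans (max_le (by linarith [Nat.cast_nonneg (α := ℝ) j]) ?_)
          push_cast at hx
          linarith
        obtain ⟨k, hk⟩ := ih _ h3
        exact ⟨k + 1, by rwa [Function.iterate_succ_apply]⟩
  exact key p p (by linarith)

/-- A number whose `(n+1)`-st iterated logarithm is at most `1` is at most the tower of height
`n + 1` of twos. -/
theorem le_tower : ∀ (n : ℕ) (x : ℝ), (∀ k ≤ n, 1 < (Real.logb 2)^[k] x) →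
    (Real.logb 2)^[n + 1] x ≤ 1 → x ≤ Pool.Agent.Helper826.Bondy.Upper.T n := by
  intro n
  induction n with
  | zero =>
    intro x h1 h2
    have hx : 1 < x := by simpa using h1 0 le_rfl
    simp only [zero_add, Function.iterate_one] at h2
    rw [Real.logb_le_iff_le_rpow (by norm_num) (by linarith)] at h2
    simpa [Pool.Agent.Helper826.Bondy.Upper.T] using h2
  | succ n ih =>
    intro x h1 h2
    have hx : 1 < x := by simpa using h1 0 (Nat.zero_le _)
    have h3 := ih (Real.logb 2 x) (fun k hk => by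
      have := h1 (k + 1) (by omega)
      rwa [Function.iterate_succ_apply] at this) (by rwa [Function.iterate_succ_apply] at h2)
    rw [Real.logb_le_iff_le_rpow (by norm_num) (by linarith), Real.rpow_natCast] at h3
    simpa [Pool.Agent.Helper826.Bondy.Upper.T] using h3

theorem le_tower_logStar (p : ℕ) (hp : 2 ≤ p) :
    1 ≤ logStar p ∧ p ≤ Pool.Agent.Helper826.Bondy.Upper.T (logStar p - 1) := by
  have hmem := Nat.sInf_mem (logStar_set_nonempty p)
  change (Real.logb 2)^[logStar p] (p : ℝ) ≤ 1 at hmem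
  have hp' : (2 : ℝ) ≤ p := by exact_mod_cast hp
  have h1 : 1 ≤ logStar p := by
    by_contra h
    have h0 : logStar p = 0 := by omega
    rw [h0] at hmem
    simp only [Function.iterate_zero, id_eq] at hmem
    linarith
  refine ⟨h1, ?_⟩
  obtain ⟨n, hn⟩ : ∃ n, logStar p = n + 1 := ⟨logStar p - 1, by omega⟩
  have h2 := le_tower n p (fun k hk => by
    by_contra hcon
    push Not at hcon
    have : logStar p ≤ k := Nat.sInf_le hcon
    omega) (by rw [← hn]; exact hmem)
  rw [hn, Nat.add_sub_cancel]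
  exact_mod_cast h2

theorem upper (p : ℕ) (hp : 3 ≤ p) : (m p : ℝ) ≤ (p : ℝ) + Real.logb 2 p + logStar p := by
  obtain ⟨h1, h2⟩ := le_tower_logStar p (by omega)
  obtain ⟨G, hG, k, hk, hE⟩ := Pool.Agent.Helper826.Bondy.Upper.main p (logStar p - 1) hp h2
  have h3 : m p ≤ G.edgeSet.ncard := Nat.sInf_le ⟨G, hG, rfl⟩
  have h4 : m p ≤ p + k + logStar p := by omega
  have h5 : (k : ℝ) ≤ Real.logb 2 p := by
    rw [Real.le_logb_iff_rpow_le (by norm_num) (by positivity), Real.rpow_natCast]
    exact_mod_cast hk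
  have h6 : (m p : ℝ) ≤ (p : ℝ) + k + logStar p := by exact_mod_cast h4
  linarith

/-- `p + log₂ p + log* p - C ≤ m p ≤ p + log₂ p + log* p` for all `p ≥ 3`. -/
theorem result : ∃ C : ℝ, ∀ p : ℕ, 3 ≤ p →
    (p : ℝ) + Real.logb 2 p + logStar p - C ≤ m p ∧
      (m p : ℝ) ≤ (p : ℝ) + Real.logb 2 p + logStar p := by
  obtain ⟨C, hC⟩ := Jia.bondy_core
  refine ⟨max C (Real.logb 2 ((3 : ℕ) : ℝ) + logStar 3 + 3), ?_⟩
  intro p hp
  refine ⟨?_, upper p hp⟩
  by_cases h4 : 4 ≤ p
  · obtain ⟨G, hA, hG⟩ := m_attained p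
    have h1 := hC p h4 p G hA
    have h2 := le_max_left C (Real.logb 2 ((3 : ℕ) : ℝ) + logStar 3 + 3)
    rw [hG] at h1
    unfold logStar at h2 ⊢
    linarith
  · have h3 : p = 3 := by omega
    subst h3
    have h2 := le_max_right C (Real.logb 2 ((3 : ℕ) : ℝ) + logStar 3 + 3)
    have h5 : (0 : ℝ) ≤ (m 3 : ℝ) := Nat.cast_nonneg _
    have h6 : (((3 : ℕ) : ℝ)) = 3 := by norm_num
    linarith

end Pool.Agent.Results.MP_af4270_co.TwoSided
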